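import Pool.Agent.H52.XR2.S1
import Pool.Agent.H45.XR.B7

/-!
# Project XR2, row GAP: end points of gaps have closed chains
-/

set_option autoImplicit false

open MeasureTheory Set Filter Topology Metric Asymptotics
open scoped Real ENNReal RealInnerProductSpace

namespace Pool.XR2

open Pool.Agent.H45.XR

namespace Gap

/-- `(a, b)` is a gap of `E`. -/
structure Gp (E : Set ℝ) (a b : ℝ) : Prop where
  ma : a ∈ E
  mb : b ∈ E
  lt : a < b
  emp : Ioo a b ∩ E = ∅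

lemma Gp.not_mem {E : Set ℝ} {a b x : ℝ} (h : Gp E a b) (h1 : a < x) (h2 : x < b) : x ∉ E := by
  intro hx
  have : x ∈ Ioo a b ∩ E := ⟨⟨h1, h2⟩, hx⟩
  rw [h.emp] at this
  exact this

lemma gp_flip {E : Set ℝ} {F : ℝ → ℝ} (hF : StrictAnti F) (hi : ∀ x, F (F x) = x)
    (hE : ∀ x ∈ E, F x ∈ E) {a b : ℝ} (h : Gp E a b) : Gp E (F b) (F a) := by
  refine ⟨hE _ h.mb, hE _ h.ma, hF h.lt, ?_⟩
  rw [eq_empty_iff_forall_notMem]
  rintro x ⟨⟨h1, h2⟩, hx⟩
  have h3 := hF h1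
  have h4 := hF h2
  rw [hi] at h3 h4
  exact h.not_mem h4 h3 (hE x hx)

/-- two gaps whose left end points are at distance less than `ℓ` coincide there. -/
lemma left_eq {E : Set ℝ} {a b a' b' ℓ : ℝ} (h : Gp E a b) (h' : Gp E a' b') (hl : ℓ ≤ b - a)
    (hl' : ℓ ≤ b' - a') (hd : |a - a'| < ℓ) : a = a' := by
  rcases lt_trichotomy a a' with h1 | h1 | h1
  · exfalso
    have := (abs_lt.mp hd).1
    exact h.not_mem h1 (by linarith) h'.ma
  · exact h1
  · exfalso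
    have := (abs_lt.mp hd).2
    exact h'.not_mem h1 (by linarith) h.ma

lemma right_eq {E : Set ℝ} {a b b' : ℝ} (h : Gp E a b) (h' : Gp E a b') : b = b' := by
  rcases lt_trichotomy b b' with h1 | h1 | h1
  · exact absurd h.mb (h'.not_mem h.lt h1)
  · exact h1
  · exact absurd h'.mb (h.not_mem h'.lt h1)

lemma sep {u : ℕ → ℝ} {a b ℓ : ℝ} (hu : ∀ n, u n ∈ Icc a b) (hl : 0 < ℓ) :
    ∃ i j, i < j ∧ |u i - u j| < ℓ := by
  obtain ⟨x, -, σ, hσ, hx⟩ := isCompact_Icc.tendsto_subseq hu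
  obtain ⟨N, hN⟩ := Metric.tendsto_atTop.mp hx (ℓ / 2) (by positivity)
  refine ⟨σ N, σ (N + 1), hσ (by omega), ?_⟩
  have h1 := hN N le_rfl
  have h2 := hN (N + 1) (by omega)
  have h3 := dist_triangle_right ((u ∘ σ) N) ((u ∘ σ) (N + 1)) x
  rw [Real.dist_eq] at h3
  have h4 : |u (σ N) - u (σ (N + 1))| ≤ dist ((u ∘ σ) N) x + dist ((u ∘ σ) (N + 1)) x := h3
  linarith

lemma psi_sub {C C' : Set ℂ} (hC : Body C) (hC' : Body C') (a b : ℝ) :
    Psi C C' b - Psi C C' a = ∫ s in a..b, (rad C' s ^ 2 - rad C s ^ 2) := by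
  have h1 := cont_rad hC
  have h2 := cont_rad hC'
  unfold Psi
  rw [intervalIntegral.integral_interval_sub_left]
  · exact Continuous.intervalIntegrable (by fun_prop) _ _
  · exact Continuous.intervalIntegrable (by fun_prop) _ _

lemma psi_lip {C C' : Set ℂ} (hC : Body C) (hC' : Body C') :
    ∃ L > 0, ∀ a b, a ≤ b → |Psi C C' b - Psi C C' a| ≤ L * (b - a) := by
  obtain ⟨R, hR, hR'⟩ := rad_le hC
  obtain ⟨S, hS, hS'⟩ := rad_le hC'
  refine ⟨R ^ 2 + S ^ 2, by positivity, fun a b hab => ?_⟩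
  rw [psi_sub hC hC']
  have h1 : ∀ x ∈ uIoc a b, ‖rad C' x ^ 2 - rad C x ^ 2‖ ≤ R ^ 2 + S ^ 2 := by
    intro x _
    have e1 := hR' x
    have e2 := hS' x
    have e3 := (rad_pos hC x).le
    have e4 := (rad_pos hC' x).le
    have e5 : rad C x ^ 2 ≤ R ^ 2 := pow_le_pow_left₀ e3 e1 2
    have e6 : rad C' x ^ 2 ≤ S ^ 2 := pow_le_pow_left₀ e4 e2 2
    rw [Real.norm_eq_abs, abs_le]
    constructor <;> nlinarith [sq_nonneg (rad C x), sq_nonneg (rad C' x)]
  have h2 := intervalIntegral.norm_integral_le_of_norm_le_const h1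
  rw [abs_of_nonneg (by linarith : 0 ≤ b - a)] at h2
  exact h2

end Gap

open Gap in
theorem t_gap (h_flb : FLBStmt) (h_rha : RHAStmt) (h_wfl : WFLStmt) (h_flx : FLXStmt) :
    GAPStmt := by
  intro C C' φ₀ φ₁ hP _ p q hq hrot a ha b hb hab hemp
  set W := C ∩ C' with hW
  obtain ⟨hWb, n0, -, w0, -, -, -, -, p0⟩ := h_wfl C C' φ₀ hP.b hP.b' hP.x0 hP.n0
  obtain ⟨-, n1, -, w1, -, -, -, -, p1⟩ := h_wfl C C' φ₁ hP.b hP.b' hP.x1 hP.n1
  rw [← hW] at hWb n0 n1 w0 w1 p0 p1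
  have i0 := (h_flx W φ₀ hWb n0).1
  have i1 := (h_flx W φ₁ hWb n1).1
  obtain ⟨hD, -⟩ := (h_flb W φ₀ hWb n0).2.2.2.2.2 φ₁ n1
  set T := TT W φ₀ φ₁ with hT
  have hTE : ∀ x ∈ EE C C', T x ∈ EE C C' := fun x hx => w1 _ (w0 x hx)
  have hTP : ∀ x ∈ EE C C', Psi C C' (T x) = Psi C C' x := fun x hx => by
    show Psi C C' (fl W φ₁ (fl W φ₀ x)) = _
    rw [p1 _ (w0 x hx), p0 x hx]
  have hTG : ∀ a b, Gp (EE C C') a b → Gp (EE C C') (T a) (T b) := fun a b h =>
    gp_flip i1.anti i1.inv w1 (gp_flip i0.anti i0.inv w0 h)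
  have h0 : Gp (EE C C') a b := ⟨ha, hb, hab, hemp⟩
  have hn : ∀ n, Gp (EE C C') (T^[n] a) (T^[n] b) ∧ Psi C C' (T^[n] a) = Psi C C' a ∧
      Psi C C' (T^[n] b) = Psi C C' b := by
    intro n
    induction n with
    | zero => exact ⟨h0, rfl, rfl⟩
    | succ n ih =>
      rw [Function.iterate_succ_apply', Function.iterate_succ_apply']
      exact ⟨hTG _ _ ih.1, (hTP _ ih.1.ma).trans ih.2.1, (hTP _ ih.1.mb).trans ih.2.2⟩
  -- lengths
  obtain ⟨L, hL, hLip⟩ := psi_lip hP.b hP.b'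
  have hd : 0 < |Psi C C' b - Psi C C' a| := by
    apply abs_pos.mpr
    exact sub_ne_zero.mpr (Psi_ne hP.b hP.b' hab hemp).symm
  set ℓ := |Psi C C' b - Psi C C' a| / L with hℓ
  have hℓ0 : 0 < ℓ := by positivity
  have hlen : ∀ n, ℓ ≤ T^[n] b - T^[n] a := by
    intro n
    have h1 := hLip _ _ (hn n).1.lt.le
    rw [(hn n).2.1, (hn n).2.2] at h1
    rw [hℓ, div_le_iff₀ hL]
    linarith
  -- translations
  have h2π : ∀ x (k : ℤ), x + 2 * π * k ∈ EE C C' ↔ x ∈ EE C C' := by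
    intro x k
    have := B3.EE_int C C' (θ := x) k
    rwa [show x + (k : ℝ) * (2 * π) = x + 2 * π * k by ring] at this
  have hGt : ∀ x y (k : ℤ), Gp (EE C C') x y → Gp (EE C C') (x + 2 * π * k) (y + 2 * π * k) := by
    intro x y k h
    refine ⟨(h2π x k).mpr h.ma, (h2π y k).mpr h.mb, by linarith [h.lt], ?_⟩
    rw [eq_empty_iff_forall_notMem]
    rintro z ⟨⟨h1, h2⟩, hz⟩
    have h3 : z = (z - 2 * π * k) + 2 * π * k := by ring
    rw [h3, h2π] at hz
    exact h.not_mem (by linarith) (by linarith) hz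
  obtain ⟨i, j, hij, hclose⟩ := sep
    (u := fun n => toIcoMod Real.two_pi_pos 0 (T^[n] a)) (a := 0) (b := 0 + 2 * π)
    (fun n => Ico_subset_Icc_self (toIcoMod_mem_Ico _ _ _)) hℓ0
  -- compare
  have hk : ∃ k : ℤ, |(T^[i] a + 2 * π * k) - T^[j] a| < ℓ := by
    refine ⟨toIcoDiv Real.two_pi_pos 0 (T^[j] a) - toIcoDiv Real.two_pi_pos 0 (T^[i] a), ?_⟩
    have e1 := toIcoMod_add_toIcoDiv_zsmul Real.two_pi_pos 0 (T^[i] a)
    have e2 := toIcoMod_add_toIcoDiv_zsmul Real.two_pi_pos 0 (T^[j] a)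
    rw [zsmul_eq_mul] at e1 e2
    have e3 : (T^[i] a + 2 * π * ((toIcoDiv Real.two_pi_pos 0 (T^[j] a) -
        toIcoDiv Real.two_pi_pos 0 (T^[i] a) : ℤ) : ℝ)) - T^[j] a =
        toIcoMod Real.two_pi_pos 0 (T^[i] a) - toIcoMod Real.two_pi_pos 0 (T^[j] a) := by
      push_cast
      linarith
    rw [e3]
    exact hclose
  obtain ⟨k, hk⟩ := hk
  have hG1 := hGt _ _ k (hn i).1
  have hG2 := (hn j).1
  have hla : T^[i] a + 2 * π * k = T^[j] a :=
    left_eq hG1 hG2 (by have := hlen i; linarith) (hlen j) hk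
  have hlb : T^[i] b + 2 * π * k = T^[j] b := by
    rw [hla] at hG1
    exact right_eq hG1 hG2
  -- iterates and translations
  have hTk : ∀ (x : ℝ) (k : ℤ), T (x + 2 * π * k) = T x + 2 * π * k := by
    intro x k
    have hp : Function.Periodic (fun x => T x - x) (2 * π) := by
      intro x
      show T (x + 2 * π) - (x + 2 * π) = T x - x
      rw [hD.per]; ring
    have h1 := hp.int_mul k x
    rw [show x + (k : ℝ) * (2 * π) = x + 2 * π * k by ring] at h1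
    linarith
  have hTik : ∀ (n : ℕ) (x : ℝ) (k : ℤ), T^[n] (x + 2 * π * k) = T^[n] x + 2 * π * k := by
    intro n
    induction n with
    | zero => intro x k; rfl
    | succ n ih => intro x k; rw [Function.iterate_succ_apply, Function.iterate_succ_apply, hTk, ih]
  have hinj : ∀ n, Function.Injective T^[n] := fun n => hD.mono.injective.iterate n
  have fin : ∀ x, T^[i] x + 2 * π * k = T^[j] x → T^[j - i] x = x + 2 * π * k := by
    intro x hx
    apply hinj i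
    rw [hTik, ← Function.iterate_add_apply, hx]
    congr 2
    omega
  have r4 := (h_rha T hD).2.2.2.1 p q hq hrot
  exact ⟨r4 a (j - i) k (by omega) (fin a hla), r4 b (j - i) k (by omega) (fin b hlb)⟩

end Pool.XR2
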