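import Pool.Agent.H52.XR2.S1

/-!
# Project XR2, row POS: rotation numbers of `C¹` bodies are not integral
-/

set_option autoImplicit false

open MeasureTheory Set Filter Topology Metric Asymptotics
open scoped Real ENNReal RealInnerProductSpace

namespace Pool.XR2

open Pool.Agent.H45.XR

namespace Pos

lemma ext_of_fx (h_flb : FLBStmt) {C : Set ℂ} {φ x : ℝ} (hC : Body C) (hN : NoSeg C φ)
    (hx : Fx (fl C φ) x) :
    (∀ z ∈ C, tc φ (pt C x) ≤ tc φ z) ∨ ∀ z ∈ C, tc φ z ≤ tc φ (pt C x) := by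
  by_contra hcon
  push Not at hcon
  obtain ⟨⟨z, hz, hz'⟩, w, hw, hw'⟩ := hcon
  have h1 := (h_flb C φ hC hN).2.2.2.2.1 x
  refine (h1.mpr ⟨min (tc φ (pt C x) - tc φ z) (tc φ w - tc φ (pt C x)),
    lt_min (by linarith) (by linarith), ⟨z, hz, ?_⟩, w, hw, ?_⟩) hx
  · have := min_le_left (tc φ (pt C x) - tc φ z) (tc φ w - tc φ (pt C x))
    linarith
  · have := min_le_right (tc φ (pt C x) - tc φ z) (tc φ w - tc φ (pt C x))
    linarith

/-- a functional with kernel `e φ` which is maximal at an extreme point. -/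
lemma fn_of_fx (h_flb : FLBStmt) {C : Set ℂ} {φ x : ℝ} (hC : Body C) (hN : NoSeg C φ)
    (hx : Fx (fl C φ) x) :
    ∃ s : ℝ, s ≠ 0 ∧ ∀ q ∈ C, (s • tcL φ) q ≤ (s • tcL φ) (pt C x) := by
  rcases ext_of_fx h_flb hC hN hx with h | h
  · refine ⟨-1, by norm_num, fun q hq => ?_⟩
    simp only [smul_apply, tcL_apply, smul_eq_mul]
    linarith [h q hq]
  · refine ⟨1, by norm_num, fun q hq => ?_⟩
    simp only [smul_apply, tcL_apply, smul_eq_mul]
    linarith [h q hq]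

lemma tcL_ne {φ s : ℝ} (hs : s ≠ 0) : s • tcL φ ≠ 0 := by
  intro h
  have h1 := congrArg (fun f : ℂ →L[ℝ] ℝ => f (Complex.I * e φ)) h
  simp only [smul_apply, tcL_apply, smul_eq_mul,
    zero_apply] at h1
  have h2 : tc φ (Complex.I * e φ) = 1 := by
    simp only [tc, Complex.mul_im, Complex.mul_re, Complex.I_re, Complex.I_im, e_re, e_im]
    linear_combination Real.sin_sq_add_cos_sq φ
  rw [h2, mul_one] at h1
  exact hs h1

lemma no_common (h_flb : FLBStmt) {C : Set ℂ} {φ₀ φ₁ x : ℝ} (hC : Body C) (h0 : NoSeg C φ₀)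
    (h1 : NoSeg C φ₁) (h01 : φ₀ < φ₁) (h10 : φ₁ < φ₀ + π) (hS : C1 C)
    (hx0 : Fx (fl C φ₀) x) (hx1 : Fx (fl C φ₁) x) : False := by
  obtain ⟨s, hs, hs'⟩ := fn_of_fx h_flb hC h0 hx0
  obtain ⟨t, ht, ht'⟩ := fn_of_fx h_flb hC h1 hx1
  obtain ⟨c, hc, hc'⟩ := hS (pt C x) (pt_mem hC x) _ _ (tcL_ne hs) (tcL_ne ht) hs' ht'
  have h2 := congrArg (fun f : ℂ →L[ℝ] ℝ => f (e φ₀)) hc'
  simp only [smul_apply, tcL_apply, smul_eq_mul, tc_e_self, mul_zero,
    tc_e] at h2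
  rcases mul_eq_zero.mp h2 with h3 | h3
  · exact ht h3
  · have h4 : 0 < Real.sin (φ₁ - φ₀) := Real.sin_pos_of_pos_of_lt_pi (by linarith) (by linarith)
    rw [show φ₀ - φ₁ = -(φ₁ - φ₀) by ring, Real.sin_neg] at h3
    linarith

end Pos

open Pos in
theorem t_pos (h_flb : FLBStmt) (h_rha : RHAStmt) (h_arc : ARCStmt) (h_cmp : CMPStmt)
    (h_mnf : MNFStmt) (h_flx : FLXStmt) : POSStmt := by
  intro C C' φ₀ φ₁ hP hS
  by_cases hne : C = C'
  · rw [← hne, inter_self]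
    have hC := hP.b
    have h0 := hP.n0
    have h1 := hP.n1
    have hpi := Real.pi_pos
    obtain ⟨-, -, f3, -, -, f6⟩ := h_flb C φ₀ hC h0
    obtain ⟨hD, hcont⟩ := f6 φ₁ h1
    obtain ⟨-, -, -, -, r5, r6, -⟩ := h_rha _ hD
    have hinv : ∀ x, fl C φ₀ (fl C φ₀ x) = x := (h_flx C φ₀ hC h0).1.inv
    have h0' : NoSeg C (φ₀ + π) := A2.noSeg_add_pi h0
    constructor
    · refine r5 hcont fun x => ?_
      have m := (h_mnf C φ₀ φ₁ (fl C φ₀ x) hC h0 h1 hP.h01).2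
      rw [hinv] at m
      apply m
      by_contra hcon
      push Not at hcon
      exact no_common h_flb hC h0 h1 hP.h01 hP.h10 hS hcon.1 hcon.2
    · refine r6 hcont fun x => ?_
      have m := (h_mnf C φ₁ (φ₀ + π) (fl C φ₀ x) hC h1 h0' hP.h10).2
      rw [f3, hinv] at m
      apply m
      by_contra hcon
      push Not at hcon
      obtain ⟨ha, k, hk⟩ := hcon
      refine no_common h_flb hC h0 h1 hP.h01 hP.h10 hS (x := fl C φ₀ x) ⟨k - 1, ?_⟩ ha
      rw [f3] at hk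
      push_cast
      linarith
  · obtain ⟨M, v, c₀, c₁, hA⟩ := h_arc C C' φ₀ φ₁ hP hne
    have h1 := (h_cmp C C' φ₀ φ₁ M v c₀ c₁ hP hA).1
    have e2 : (2 : ℝ) ≤ ((c₁ - c₀ : ℤ) : ℝ) := by exact_mod_cast hA.e2
    have eM : ((c₁ - c₀ : ℤ) : ℝ) + 2 ≤ (M : ℝ) := by exact_mod_cast hA.eM
    rw [h1]
    constructor
    · apply div_pos <;> linarith
    · rw [div_lt_one (by linarith)]
      linarith

end Pool.XR2
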