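import Pool.Agent.H52.XR2.S2

/-!
# Project XR2, row RND: roundness
-/

set_option autoImplicit false

open MeasureTheory Set Filter Topology Metric Asymptotics
open scoped Real ENNReal RealInnerProductSpace

namespace Pool.XR2

open Pool.Agent.H45.XR

namespace RND

lemma z_polar (z : ℂ) : z = (‖z‖ : ℂ) * e z.arg := (Complex.norm_mul_exp_arg_mul_I z).symm

lemma bd_of_rad {C : Set ℂ} (hC : Body C) {r R : ℝ} (h1 : ∀ θ, r ≤ rad C θ)
    (h2 : ∀ θ, rad C θ ≤ R) : Bd r R C := by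
  refine ⟨hC, fun z hz => ?_, fun z hz => ?_⟩
  · rw [z_polar z, mem_iff_le_rad hC _ (norm_nonneg z)]
    rw [mem_ball_zero_iff] at hz
    exact hz.le.trans (h1 _)
  · rw [mem_closedBall_zero_iff]
    rw [z_polar z, mem_iff_le_rad hC _ (norm_nonneg z)] at hz
    exact hz.trans (h2 _)

/-- bodies close to a body are between two fixed balls -/
lemma bd_of_lim {C : ℕ → Set ℂ} {D : Set ℂ} (hC : ∀ᶠ n in atTop, Body (C n)) (hD : Body D)
    (h : BLim C D) : ∃ r > 0, ∃ R > 0, ∀ᶠ n in atTop, Bd r R (C n) := by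
  obtain ⟨r, hr, hr'⟩ := A2.rad_ge hD
  obtain ⟨R, hR, hR'⟩ := rad_le hD
  refine ⟨r / 2, by positivity, R + r / 2, by positivity, ?_⟩
  have h1 := Metric.tendstoUniformly_iff.mp h (r / 2) (by positivity)
  filter_upwards [h1, hC] with n hn hCn
  apply bd_of_rad hCn
  · intro θ
    have h2 := hn θ
    rw [Real.dist_eq] at h2
    have h3 := (abs_lt.mp h2).2
    linarith [hr' θ]
  · intro θ
    have h2 := hn θ
    rw [Real.dist_eq] at h2
    have h3 := (abs_lt.mp h2).1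
    linarith [hR' θ]

lemma blim_inter {C C' : ℕ → Set ℂ} {D D' : Set ℂ} (hC : ∀ n, Body (C n))
    (hC' : ∀ n, Body (C' n)) (hD : Body D) (hD' : Body D') (h : BLim C D) (h' : BLim C' D') :
    BLim (fun n => C n ∩ C' n) (D ∩ D') := by
  rw [BLim, Metric.tendstoUniformly_iff] at *
  intro ε hε
  filter_upwards [h ε hε, h' ε hε] with n h1 h2 θ
  have h3 := h1 θ
  have h4 := h2 θ
  rw [Real.dist_eq] at *
  rw [B3.rad_inter hD hD', B3.rad_inter (hC n) (hC' n)]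
  rw [abs_lt] at *
  rcases min_cases (rad D θ) (rad D' θ) with ⟨h5, h6⟩ | ⟨h5, h6⟩ <;>
  rcases min_cases (rad (C n) θ) (rad (C' n) θ) with ⟨h7, h8⟩ | ⟨h7, h8⟩ <;>
  rw [h5, h7] <;> constructor <;> linarith

lemma noSeg_of_sameX {C C' : Set ℂ} (hC : Body C) (hC' : Body C') {φ : ℝ} (hX : SameX C C' φ)
    (hS : NoSeg C φ) : NoSeg C' φ := by
  intro p hp q hq hpq ht
  have h1 := eq_add_of_tc_eq ht
  set y := yc φ p - yc φ q with hy
  have hy0 : y ≠ 0 := by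
    intro h0
    apply hpq
    rw [h1, h0]; simp
  have h2 : 0 < volume {s : ℝ | q + s * e φ ∈ C'} := by
    have h3 : uIcc 0 y ⊆ {s : ℝ | q + s * e φ ∈ C'} := by
      intro s hs
      rw [← segment_eq_uIcc] at hs
      obtain ⟨a, b, ha, hb, hab, rfl⟩ := hs
      have h4 := hC'.conv hq hp ha hb hab
      show q + ((a • (0:ℝ) + b • y : ℝ) : ℂ) * e φ ∈ C'
      convert h4 using 1
      rw [h1]
      simp only [smul_eq_mul, mul_zero, zero_add, Complex.real_smul]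
      have : (a : ℂ) + b = 1 := by exact_mod_cast hab
      push_cast
      linear_combination (-q) * this
    refine lt_of_lt_of_le ?_ (measure_mono h3)
    rw [Real.volume_interval]
    simpa using hy0
  rw [← hX q] at h2
  have h3 : ¬ ({s : ℝ | q + s * e φ ∈ C}).Subsingleton := by
    intro h4
    exact h2.ne' (h4.measure_zero volume)
  rw [Set.not_subsingleton_iff] at h3
  obtain ⟨s, hs, s', hs', hss⟩ := h3
  obtain ⟨z, hz, hz'⟩ := hS (q + s * e φ) hs (q + s' * e φ) hs' (by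
    intro h5
    apply hss
    have h6 : ((s : ℂ) - s') * e φ = 0 := by linear_combination h5
    rcases mul_eq_zero.mp h6 with h7 | h7
    · exact_mod_cast sub_eq_zero.mp h7
    · exact absurd h7 (e_ne_zero φ)) (by simp [tc_add, tc_mul])
  have hz'' : tc φ z = tc φ p := by
    rw [hz', tc_add, tc_mul, tc_e_self, ht]; ring
  obtain ⟨w, hw, hw'⟩ := B3.meets hC hC' hX hz hp hz''.symm
  exact ⟨w, hw, hw'.trans hz''⟩

/-- a longest chord -/
lemma longest {S : Set ℂ} (hS : IsCompact S) (hne : S.Nonempty) :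
    ∃ P ∈ S, ∃ Q ∈ S, ∀ p ∈ S, ∀ q ∈ S, ‖p - q‖ ≤ ‖Q - P‖ := by
  obtain ⟨x, hx, hx'⟩ := (hS.prod hS).exists_isMaxOn (hne.prod hne)
    (f := fun x : ℂ × ℂ => ‖x.2 - x.1‖) (by fun_prop)
  refine ⟨x.1, hx.1, x.2, hx.2, fun p hp q hq => ?_⟩
  have h1 := hx' (show (q, p) ∈ S ×ˢ S from ⟨hq, hp⟩)
  exact h1

/-- not round: the width across the longest chord is small -/
lemma thin {S : Set ℂ} (hS : IsCompact S) (hne : S.Nonempty) {c : ℝ} (hc : 0 < c)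
    (hr : ¬ Round c S) : ∃ P ∈ S, ∃ Q ∈ S, 0 < ‖Q - P‖ ∧ (∀ p ∈ S, ∀ q ∈ S, ‖p - q‖ ≤ ‖Q - P‖) ∧
      ∀ p ∈ S, ∀ q ∈ S, |tc (Q - P).arg (p - q)| ≤ 2 * ‖Q - P‖ / c := by
  obtain ⟨P, hP, Q, hQ, hmax⟩ := longest hS hne
  unfold Round at hr
  push Not at hr
  obtain ⟨p₀, hp₀, q₀, hq₀, φ, hφ⟩ := hr
  have h0 : ∀ p ∈ S, ∀ q ∈ S, c * tc φ (q - p) < ‖Q - P‖ := by
    intro p hp q hq
    rw [tc_sub]
    exact (hφ p hp q hq).trans_le (hmax _ hp₀ _ hq₀)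
  have hd : 0 < ‖Q - P‖ := by
    have := h0 P hP P hP
    simpa using this
  have h1 : ∀ p ∈ S, ∀ q ∈ S, |tc φ (p - q)| ≤ ‖Q - P‖ / c := by
    intro p hp q hq
    have h2 := h0 p hp q hq
    have h3 := h0 q hq p hp
    have h4 : tc φ (q - p) = - tc φ (p - q) := by rw [tc_sub, tc_sub]; ring
    rw [h4] at h2
    rw [abs_le, le_div_iff₀ hc, neg_le, le_div_iff₀ hc]
    constructor <;> linarith
  refine ⟨P, hP, Q, hQ, hd, hmax, fun p hp q hq => ?_⟩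
  set ψ := (Q - P).arg with hψ
  have h2 : Q - P = (‖Q - P‖ : ℂ) * e ψ := z_polar (Q - P)
  have h3 : |Real.sin (ψ - φ)| ≤ 1 / c := by
    have h4 := h1 Q hQ P hP
    rw [h2, tc_mul, tc_e, norm_mul, norm_e, mul_one, Complex.norm_real, norm_norm, abs_mul,
      abs_norm] at h4
    rw [le_div_iff₀ hc] at h4
    rw [le_div_iff₀ hc]
    have h5 : ‖Q - P‖ * (|Real.sin (ψ - φ)| * c) ≤ ‖Q - P‖ * 1 := by linarith
    exact le_of_mul_le_mul_left h5 hd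
  have h4 : |yc φ (p - q)| ≤ ‖Q - P‖ := by
    refine le_trans ?_ (hmax p hp q hq)
    have h5 := decomp φ (p - q)
    have h6 : yc φ (p - q) ^ 2 ≤ ‖p - q‖ ^ 2 := by
      rw [Complex.sq_norm, Complex.normSq_apply]
      unfold yc
      nlinarith [sq_nonneg (Real.sin φ * (p - q).re - Real.cos φ * (p - q).im),
        Real.sin_sq_add_cos_sq φ]
    exact abs_le_of_sq_le_sq h6 (norm_nonneg _)
  have h5 : tc ψ (p - q) = Real.cos (ψ - φ) * tc φ (p - q) - Real.sin (ψ - φ) * yc φ (p - q) := by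
    have := tc_rot φ (ψ - φ) (p - q)
    rwa [add_sub_cancel] at this
  rw [h5]
  calc |Real.cos (ψ - φ) * tc φ (p - q) - Real.sin (ψ - φ) * yc φ (p - q)|
      ≤ |Real.cos (ψ - φ) * tc φ (p - q)| + |Real.sin (ψ - φ) * yc φ (p - q)| := abs_sub _ _
    _ ≤ ‖Q - P‖ / c + (1 / c) * ‖Q - P‖ := by
        rw [abs_mul, abs_mul]
        apply add_le_add
        · calc |Real.cos (ψ - φ)| * |tc φ (p - q)| ≤ 1 * |tc φ (p - q)| :=
                mul_le_mul_of_nonneg_right (Real.abs_cos_le_one _) (abs_nonneg _)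
            _ ≤ ‖Q - P‖ / c := by rw [one_mul]; exact h1 p hp q hq
        · exact mul_le_mul h3 h4 (abs_nonneg _) (by positivity)
    _ = 2 * ‖Q - P‖ / c := by ring

lemma exists_ae {P : ℝ → Prop} (h : ∀ᵐ x : ℝ, P x) {a b : ℝ} (hab : a < b) :
    ∃ x, a < x ∧ x < b ∧ P x := by
  obtain ⟨x, hx, hx'⟩ := (Measure.dense_of_ae h).exists_between hab
  exact ⟨x, hx'.1, hx'.2, hx⟩

lemma types_small (h_cls : CLSStmt) {K : Set (ℂ × ℝ)} (hK : Body3 K) {g : ℕ → ℂ}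
    (hg : Tendsto g atTop (𝓝 0)) {φ₀ : ℝ} (hs : ¬ SymAff K φ₀) (hN : ∀ n, NSH (Sg (g n) K) φ₀) :
    ∃ n₀ : ℕ, ∃ θ₀ > 0, ∀ n ≥ n₀, ∀ θ, 0 < θ → θ < θ₀ → NSH (Sg (g n) K) (φ₀ + θ) →
      ∀ (K' : Set (ℂ × ℝ)) (τ : ℝ), Mate (Sg (g n) K) K' φ₀ (φ₀ + θ) →
      (∀ h ∈ Hts (Sg (g n) K), rot3 (Sg (g n) K) K' φ₀ (φ₀ + θ) h = τ) → τ < 1 / 4 := by
  by_contra hcon
  push Not at hcon
  have h1 : ∀ m : ℕ, ∃ n ≥ m, ∃ θ, 0 < θ ∧ θ < 1 / ((m : ℝ) + 1) ∧ NSH (Sg (g n) K) (φ₀ + θ) ∧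
      ∃ (K' : Set (ℂ × ℝ)) (τ : ℝ), Mate (Sg (g n) K) K' φ₀ (φ₀ + θ) ∧
      (∀ h ∈ Hts (Sg (g n) K), rot3 (Sg (g n) K) K' φ₀ (φ₀ + θ) h = τ) ∧ 1 / 4 ≤ τ :=
    fun m => hcon m (1 / ((m : ℝ) + 1)) (by positivity)
  choose n hn θ hθ hθ' hN' K' τ hM hrot hτ using h1
  apply hs
  refine h_cls K (fun m => g (n m)) (fun _ => φ₀) θ τ K' φ₀ (1 / 4) hK ?_ tendsto_const_nhds ?_ hθ
    (fun m => hN (n m)) hN' hM (by norm_num) hτ hrot
  · exact hg.comp (tendsto_atTop_mono hn tendsto_id)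
  · exact squeeze_zero (fun m => (hθ m).le) (fun m => (hθ' m).le)
      tendsto_one_div_add_atTop_nhds_zero_nat

end RND

open RND

theorem t_rnd (h_nsa : NSAStmt) (h_crt : CRTStmt) (h_cls : CLSStmt) (h_sac : SACStmt)
    (h_elo : ELOStmt) (h_pos : POSStmt) (h_s2d : S2DStmt) (h_csc : CSCStmt) (h_cpt : CPTStmt)
    (h_bdd : BDDStmt) (h_sxc : SXCStmt) (h_rcn : RCNStmt) (h_pmh : PMHStmt) (h_sgb : SGBStmt) :
    RNDStmt := by
  intro K hK hC1 hU hns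
  by_contra hcon
  push Not at hcon
  have h1 : ∀ n : ℕ, ∃ g : ℂ, ‖g‖ < 1 / ((n : ℝ) + 1) ∧ ∃ h ∈ Hts (Sg g K),
      ¬ Round (n + 1) (sec (Sg g K) h) :=
    fun n => hcon (n + 1) (by positivity) (1 / ((n : ℝ) + 1)) (by positivity)
  choose g hg h hh hR using h1
  have hg0 : Tendsto g atTop (𝓝 0) :=
    squeeze_zero_norm (fun n => (hg n).le) tendsto_one_div_add_atTop_nhds_zero_nat
  have hB : ∀ n, Body3 (Sg (g n) K) := fun n => (h_sgb K hK).1 _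
  have hne : ∀ n, (sec (Sg (g n) K) (h n)).Nonempty := fun n =>
    (interior_sec_nonempty (hB n) (hh n)).mono interior_subset
  have h2 := fun n => thin (sec_compact (hB n) (h n)) (hne n) (c := (n : ℝ) + 1) (by positivity)
    (hR n)
  choose P hP Q hQ hd hmax hw using h2
  obtain ⟨ψ', -, σ, hσ, hψ⟩ := (isCompact_Icc (a := -π) (b := π)).tendsto_subseq
    (x := fun n => (Q n - P n).arg)
    (fun n => ⟨(Complex.neg_pi_lt_arg _).le, Complex.arg_le_pi _⟩)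
  -- the choice of `φ₀`
  have hUo : IsOpen {φ : ℝ | ¬ SymAff K φ} := (h_sac K hK).isOpen_compl
  have hae : ∀ᵐ φ : ℝ, (∀ n, NSH (Sg (g n) K) φ) ∧ NSH K φ ∧ Real.sin (ψ' - φ) ≠ 0 := by
    have e1 : ∀ᵐ φ : ℝ, ∀ n, NSH (Sg (g n) K) φ := ae_all_iff.mpr fun n => h_nsa _ (hB n)
    have e2 : ∀ᵐ φ : ℝ, Real.sin (ψ' - φ) ≠ 0 := by
      have e3 : {φ : ℝ | Real.sin (ψ' - φ) = 0}.Countable := by
        refine (countable_range (fun k : ℤ => ψ' - k * π)).mono ?_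
        intro φ (hφ : Real.sin (ψ' - φ) = 0)
        obtain ⟨k, hk⟩ := Real.sin_eq_zero_iff.mp hφ
        exact ⟨k, by simp only; linarith⟩
      rw [ae_iff]
      simpa using e3.measure_zero volume
    filter_upwards [e1, h_nsa K hK, e2] with φ a b c
    exact ⟨a, b, c⟩
  obtain ⟨φ₀, hφs, hN0, hNK0, hsin⟩ := (Measure.dense_of_ae hae).inter_open_nonempty _ hUo hns
  obtain ⟨n₀, θ₀, hθ₀, hsmall⟩ := types_small h_cls hK hg0 hφs hN0
  -- the choice of `θ`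
  obtain ⟨δ, hδ, hδ'⟩ : ∃ δ > 0, ∀ x, |x - φ₀| < δ → Real.sin (ψ' - x) ≠ 0 := by
    have ho : IsOpen {x : ℝ | Real.sin (ψ' - x) ≠ 0} :=
      isOpen_ne_fun (by fun_prop) continuous_const
    obtain ⟨δ, hδ, hb⟩ := Metric.isOpen_iff.mp ho φ₀ hsin
    exact ⟨δ, hδ, fun x hx => hb (by rwa [mem_ball, Real.dist_eq])⟩
  have hcrt : ∀ᵐ φ₁ : ℝ, NSH K φ₁ ∧ ∀ n, (φ₀ < φ₁ → φ₁ < φ₀ + π → NSH (Sg (g n) K) φ₁ ∧
      ∀ K', Mate (Sg (g n) K) K' φ₀ φ₁ → K' ≠ Sg (g n) K →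
      ∃ τ : ℝ, 0 < τ ∧ τ < 1 ∧ ∀ h ∈ Hts (Sg (g n) K), rot3 (Sg (g n) K) K' φ₀ φ₁ h = τ) := by
    filter_upwards [h_nsa K hK, ae_all_iff.mpr fun n => h_crt _ φ₀ (hB n) (hN0 n)] with φ a b
    exact ⟨a, b⟩
  have hpi := Real.pi_pos
  obtain ⟨φ₁, h01, h1m, hNK1, hφ₁⟩ := exists_ae hcrt
    (show φ₀ < φ₀ + min (min θ₀ δ) (π / 2) by
      have : 0 < min (min θ₀ δ) (π / 2) := by positivity
      linarith)
  have hm1 : φ₁ - φ₀ < min (min θ₀ δ) (π / 2) := by linarith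
  have hm2 : φ₁ - φ₀ < θ₀ := hm1.trans_le ((min_le_left _ _).trans (min_le_left _ _))
  have hm3 : φ₁ - φ₀ < δ := hm1.trans_le ((min_le_left _ _).trans (min_le_right _ _))
  have hm4 : φ₁ - φ₀ < π / 2 := hm1.trans_le (min_le_right _ _)
  have h10 : φ₁ < φ₀ + π := by linarith
  have hψ' : ∀ x ∈ Icc φ₀ φ₁, ∀ k : ℤ, ψ' ≠ x + k * π := by
    intro x hx k hk
    apply hδ' x (by rw [abs_of_nonneg (by linarith [hx.1])]; linarith [hx.2])
    rw [hk, add_sub_cancel_left]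
    exact Real.sin_int_mul_pi k
  -- the mates
  have h3 : ∀ n, ∃ K' : Set (ℂ × ℝ), Mate (Sg (g n) K) K' φ₀ φ₁ ∧ K' ≠ Sg (g n) K :=
    fun n => hU (g n) φ₀ φ₁ h01 h10
  choose K' hM hKne using h3
  have h4 : ∀ n, NSH (Sg (g n) K) φ₁ := fun n => (hφ₁ n h01 h10).1
  have h5 := fun n => (hφ₁ n h01 h10).2 (K' n) (hM n) (hKne n)
  choose τ hτ0 hτ1 hτ using h5
  have h6 : ∀ n ≥ n₀, τ n < 1 / 4 := by
    intro n hn
    have e1 : φ₀ + (φ₁ - φ₀) = φ₁ := by ring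
    refine hsmall n hn (φ₁ - φ₀) (by linarith) hm2 ?_ (K' n) (τ n) ?_ ?_
    · rw [e1]; exact h4 n
    · rw [e1]; exact hM n
    · rw [e1]; exact hτ n
  have hPM := fun n => h_pmh (Sg (g n) K) (K' n) φ₀ φ₁ (hB n) (hM n) h01 h10 (hN0 n) (h4 n)
  -- the types tend to zero
  have h7 : Tendsto (fun n => τ (σ n)) atTop (𝓝 0) := by
    have e1 := h_elo (fun n => Cq (Sg (g (σ n)) K) (h (σ n))) (fun n => Cq (K' (σ n)) (h (σ n)))
      φ₀ φ₁ (fun n => (Q (σ n) - P (σ n)).arg) ψ' (fun n => ‖Q (σ n) - P (σ n)‖)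
      (fun n => 2 * ‖Q (σ n) - P (σ n)‖ / ((σ n : ℕ) + 1))
      (fun n => ((hPM (σ n)).2 _ (hh (σ n))).2.1) (fun n => ((hPM (σ n)).2 _ (hh (σ n))).2.2) hψ
      hψ' ?_ ?_ ?_
    · rw [Metric.tendsto_atTop]
      intro ε hε
      have e2 := e1 (min ε (1 / 4)) (by positivity)
      have e3 : ∀ᶠ n in atTop, n₀ ≤ σ n :=
        (tendsto_atTop.mp hσ.tendsto_atTop) n₀
      obtain ⟨N, hN⟩ := eventually_atTop.mp (e2.and e3)
      refine ⟨N, fun n hn => ?_⟩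
      obtain ⟨e4, e5⟩ := hN n hn
      have e6 : rot (Cq (Sg (g (σ n)) K) (h (σ n)) ∩ Cq (K' (σ n)) (h (σ n))) φ₀ φ₁ = τ (σ n) :=
        hτ (σ n) (h (σ n)) (hh (σ n))
      rw [e6] at e4
      have e7 := h6 (σ n) e5
      rw [Real.dist_eq, sub_zero, abs_of_pos (hτ0 _)]
      rcases e4 with e4 | e4
      · exact e4.trans_le (min_le_left _ _)
      · exfalso
        have e8 := (abs_lt.mp (e4.trans_le (min_le_right _ _))).1
        linarith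
    · intro n
      refine ⟨hd _, ?_, P (σ n) - cen (sec (Sg (g (σ n)) K) (h (σ n))), ?_,
        Q (σ n) - cen (sec (Sg (g (σ n)) K) (h (σ n))), ?_, ?_⟩
      · intro p hp q hq
        have := hmax (σ n) _ hp _ hq
        simpa using this
      · unfold Cq
        rw [mem_tr, sub_add_cancel]; exact hP _
      · unfold Cq
        rw [mem_tr, sub_add_cancel]; exact hQ _
      · rw [sub_sub_sub_cancel_right]; exact z_polar _
    · intro n p hp q hq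
      have := hw (σ n) _ hp _ hq
      simpa using this
    · have e1 : (fun n => (2 * ‖Q (σ n) - P (σ n)‖ / ((σ n : ℕ) + 1)) / ‖Q (σ n) - P (σ n)‖) =
          fun n => 2 * (1 / (((σ n : ℕ) : ℝ) + 1)) := by
        funext n
        have := hd (σ n)
        field_simp
      rw [e1]
      have e2 := (tendsto_one_div_add_atTop_nhds_zero_nat (𝕜 := ℝ)).comp hσ.tendsto_atTop
      have e3 := e2.const_mul 2
      simpa using e3
  -- a fixed height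
  obtain ⟨z₀, hz₀⟩ := hK.ne
  set h₀ : ℝ := z₀.2 with hh₀
  have hHts : h₀ ∈ Hts K := ⟨z₀.1, hz₀⟩
  have hS0 : Sg 0 K = K := (h_sgb K hK).2.1
  have h8 := h_csc K (fun n => g (σ n)) 0 (fun _ => h₀) h₀ hK (hg0.comp hσ.tendsto_atTop)
    tendsto_const_nhds (by rw [hS0]; exact hHts)
  rw [hS0] at h8
  obtain ⟨h8a, h8b, -⟩ := h8
  obtain ⟨r, hr, R, hR0, h9⟩ := bd_of_lim
    (by filter_upwards [h8a] with n hn; exact body_Cq (hB _) hn) (body_Cq hK hHts) h8b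
  obtain ⟨r', hr', R', hR', hbdd⟩ := h_bdd r R (min (φ₁ - φ₀) (π / 2)) hr
    (by have : 0 < φ₁ - φ₀ := by linarith
        positivity)
  obtain ⟨N, hN⟩ := eventually_atTop.mp (h8a.and h9)
  have h10' : ∀ n, Bd r' R' (Cq (K' (σ (n + N))) h₀) := by
    intro n
    obtain ⟨a, b⟩ := hN (n + N) (by omega)
    have e1 := (hPM (σ (n + N))).2 h₀ a
    exact hbdd _ _ φ₀ φ₁ b e1.2.1 (min_le_left _ _)
      (by have := min_le_right (φ₁ - φ₀) (π / 2); linarith) e1.2.2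
  obtain ⟨D, κ, hκ, hD, hDlim⟩ := h_cpt r' R' _ hr' h10'
  have hbC : Body (Cq K h₀) := body_Cq hK hHts
  set C : ℕ → Set ℂ := fun n => Cq (Sg (g (σ (κ n + N))) K) h₀ with hC
  set C' : ℕ → Set ℂ := fun n => Cq (K' (σ (κ n + N))) h₀ with hC'
  have hP2 : ∀ n, PM (C n) (C' n) φ₀ φ₁ := fun n =>
    ((hPM (σ (κ n + N))).2 h₀ (hN (κ n + N) (by omega)).1).2.1
  have hκN : Tendsto (fun n => κ n + N) atTop atTop :=
    tendsto_atTop_mono (fun n => Nat.le_add_right _ _) hκ.tendsto_atTop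
  have hClim : BLim C (Cq K h₀) := by
    intro u hu
    exact hκN.eventually (h8b u hu)
  have hx0 : SameX (Cq K h₀) D φ₀ := h_sxc C C' _ _ (fun _ => φ₀) φ₀ (fun n => (hP2 n).b)
    (fun n => (hP2 n).b') hbC hD.body hClim hDlim tendsto_const_nhds fun n => (hP2 n).x0
  have hx1 : SameX (Cq K h₀) D φ₁ := h_sxc C C' _ _ (fun _ => φ₁) φ₁ (fun n => (hP2 n).b)
    (fun n => (hP2 n).b') hbC hD.body hClim hDlim tendsto_const_nhds fun n => (hP2 n).x1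
  have hPD : PM (Cq K h₀) D φ₀ φ₁ := ⟨hbC, hD.body, h01, h10, hx0, hx1, hNK0 h₀ hHts,
    hNK1 h₀ hHts⟩
  have hpos := (h_pos _ _ φ₀ φ₁ hPD (h_s2d K h₀ hK hC1 hHts)).1
  have hlim := h_rcn (fun n => C n ∩ C' n) (Cq K h₀ ∩ D) (fun _ => φ₀) (fun _ => φ₁) φ₀ φ₁
    (fun n => B3.body_inter (hP2 n).b (hP2 n).b')
    (fun n => B3.noSeg_inter (hP2 n).b (hP2 n).b' (hP2 n).x0 (hP2 n).n0)
    (fun n => B3.noSeg_inter (hP2 n).b (hP2 n).b' (hP2 n).x1 (hP2 n).n1)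
    (B3.body_inter hbC hD.body) (B3.noSeg_inter hbC hD.body hx0 hPD.n0)
    (B3.noSeg_inter hbC hD.body hx1 hPD.n1)
    (blim_inter (fun n => (hP2 n).b) (fun n => (hP2 n).b') hbC hD.body hClim hDlim)
    tendsto_const_nhds tendsto_const_nhds
  have hrot : ∀ n, rot (C n ∩ C' n) φ₀ φ₁ = τ (σ (κ n + N)) := fun n =>
    hτ _ h₀ (hN (κ n + N) (by omega)).1
  simp only [hrot] at hlim
  have h11 : Tendsto (fun n => τ (σ (κ n + N))) atTop (𝓝 0) := h7.comp hκN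
  have := tendsto_nhds_unique hlim h11
  linarith

end Pool.XR2
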